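import Mathlib

/-!
Rothberger spaces, the Rothberger game, and prediction.
-/

namespace Pool.Agent.Roth

open Filter Set

/-- The restriction of `f` to `n`, as a list: `[f 0, ..., f (n-1)]`. -/
def hist (f : ℕ → ℕ) (n : ℕ) : List ℕ := (List.range n).map f

@[simp] lemma hist_zero (f : ℕ → ℕ) : hist f 0 = [] := rfl

@[simp] lemma hist_length (f : ℕ → ℕ) (n : ℕ) : (hist f n).length = n := by
  simp [hist]

lemma hist_succ (f : ℕ → ℕ) (n : ℕ) : hist f (n + 1) = hist f n ++ [f n] := by
  simp [hist, List.range_succ]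

lemma hist_congr {f g : ℕ → ℕ} {n : ℕ} (h : ∀ m < n, f m = g m) : hist f n = hist g n := by
  unfold hist
  apply List.map_congr_left
  intro m hm
  exact h m (List.mem_range.1 hm)

lemma hist_getD (f : ℕ → ℕ) {n m : ℕ} (h : m < n) (d : ℕ) : (hist f n).getD m d = f m := by
  simp [hist, List.getD_eq_getElem?_getD, h]

/-- Functions can be defined by recursion on their histories. -/
lemma exists_rec (step : List ℕ → ℕ) : ∃ w : ℕ → ℕ, ∀ n, w n = step (hist w n) := by
  let L : ℕ → List ℕ := fun n => Nat.rec [] (fun _ l => l ++ [step l]) n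
  have hL : ∀ n, L (n + 1) = L n ++ [step (L n)] := fun n => rfl
  have hL0 : L 0 = [] := rfl
  refine ⟨fun n => step (L n), ?_⟩
  have key : ∀ n, hist (fun n => step (L n)) n = L n := by
    intro n
    induction n with
    | zero => simp [hL0]
    | succ n ih => rw [hist_succ, ih, hL]
  intro n
  rw [key]

/-- A set `X` has the sequential Rothberger property if from every sequence of countable open
covers one can choose one member each so that the chosen sets cover `X`. -/
def RothSeq {α : Type*} [TopologicalSpace α] (X : Set α) : Prop :=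
  ∀ G : ℕ → ℕ → Set α, (∀ n j, IsOpen (G n j)) → (∀ n, X ⊆ ⋃ j, G n j) →
    ∃ g : ℕ → ℕ, X ⊆ ⋃ n, G n (g n)

variable {α : Type*} [TopologicalSpace α] {X : Set α}

/-- Infinitely often version of the selection. -/
lemma RothSeq.io (hX : RothSeq X) (G : ℕ → ℕ → Set α) (hG : ∀ n j, IsOpen (G n j))
    (hc : ∀ n, X ⊆ ⋃ j, G n j) : ∃ g : ℕ → ℕ, ∀ x ∈ X, ∃ᶠ n in atTop, x ∈ G n (g n) := by
  have h : ∀ r : ℕ, ∃ g : ℕ → ℕ, X ⊆ ⋃ m, G (Nat.pair r m) (g m) := fun r =>
    hX (fun m j => G (Nat.pair r m) j) (fun m j => hG _ _) (fun m => hc _)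
  choose g hg using h
  refine ⟨fun n => g n.unpair.1 n.unpair.2, ?_⟩
  intro x hx
  rw [frequently_atTop]
  intro r
  obtain ⟨m, hm⟩ := mem_iUnion.1 (hg r hx)
  refine ⟨Nat.pair r m, Nat.left_le_pair r m, ?_⟩
  simpa using hm

/-- Menger-type selection from increasing covers, infinitely often. -/
lemma RothSeq.menger (hX : RothSeq X) (O : ℕ → ℕ → Set α) (hO : ∀ n j, IsOpen (O n j))
    (hc : ∀ n, X ⊆ ⋃ j, O n j) : ∃ g : ℕ → ℕ, ∀ x ∈ X, ∃ᶠ n in atTop, x ∈ O n (g n) :=
  hX.io O hO hc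

end Pool.Agent.Roth
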