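import Pool.Agent.Lib_helper10.Roth.Basic

namespace Pool.Agent.Roth

open Filter Set

variable {α : Type*} [TopologicalSpace α] {X : Set α}

/-! ### Selection from partial covers -/

/-- The auxiliary cover member attached to a code `p` at stage `m`. -/
noncomputable def auxSet (V : ℕ → ℕ → Set α) (m : ℕ) (l : List (ℕ × ℕ)) : Set α :=
  open Classical in
  if (l.map Prod.fst).Nodup ∧ l.length = m + 1 then ⋂ q ∈ l.toFinset, V q.1 q.2 else ∅

lemma auxSet_open (V : ℕ → ℕ → Set α) (hV : ∀ n j, IsOpen (V n j)) (m : ℕ) (l : List (ℕ × ℕ)) :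
    IsOpen (auxSet V m l) := by
  unfold auxSet
  split_ifs
  · exact isOpen_biInter_finset (fun q _ => hV _ _)
  · exact isOpen_empty

omit [TopologicalSpace α] in
lemma mem_auxSet {V : ℕ → ℕ → Set α} {m : ℕ} {l : List (ℕ × ℕ)} {x : α} (h : x ∈ auxSet V m l) :
    (l.map Prod.fst).Nodup ∧ l.length = m + 1 ∧ ∀ q ∈ l, x ∈ V q.1 q.2 := by
  unfold auxSet at h
  split_ifs at h with hc
  · refine ⟨hc.1, hc.2, ?_⟩
    intro q hq
    have := mem_iInter₂.1 h q (List.mem_toFinset.2 hq)
    exact this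
  · exact absurd h (notMem_empty x)

/-- If every point of a Rothberger set is in the union of the `n`-th family for infinitely many
`n`, then one member of each family can be chosen so that every point is in infinitely many of
the chosen sets. -/
lemma RothSeq.select (hX : RothSeq X) (V : ℕ → ℕ → Set α) (hV : ∀ n j, IsOpen (V n j))
    (hc : ∀ x ∈ X, ∃ᶠ n in atTop, ∃ j, x ∈ V n j) :
    ∃ g : ℕ → ℕ, ∀ x ∈ X, ∃ᶠ n in atTop, x ∈ V n (g n) := by
  classical
  obtain ⟨dec, hdec⟩ := exists_surjective_nat (List (ℕ × ℕ))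
  obtain ⟨p, hp⟩ := hX.io (fun m c => auxSet V m (dec c)) (fun m c => auxSet_open V hV m _) (by
    intro m x hx
    have hinf : {n | ∃ j, x ∈ V n j}.Infinite := Nat.frequently_atTop_iff_infinite.1 (hc x hx)
    obtain ⟨s, hs, hcard⟩ := hinf.exists_subset_card_eq (m + 1)
    have hs' : ∀ n : ℕ, ∃ j, n ∈ s → x ∈ V n j := by
      intro n
      by_cases hn : n ∈ s
      · obtain ⟨j, hj⟩ := hs hn
        exact ⟨j, fun _ => hj⟩
      · exact ⟨0, fun h => absurd h hn⟩
    choose j hj using hs'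
    obtain ⟨c, hcd⟩ := hdec (s.toList.map (fun n => (n, j n)))
    refine mem_iUnion.2 ⟨c, ?_⟩
    show x ∈ auxSet V m (dec c)
    rw [hcd]
    unfold auxSet
    rw [if_pos]
    · refine mem_iInter₂.2 ?_
      intro q hq
      rw [List.mem_toFinset, List.mem_map] at hq
      obtain ⟨n, hn, rfl⟩ := hq
      exact hj n (Finset.mem_toList.1 hn)
    · constructor
      · rw [List.map_map]
        have : (Prod.fst ∘ fun n => (n, j n)) = (id : ℕ → ℕ) := by
          funext n; rfl
        rw [this, List.map_id]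
        exact s.nodup_toList
      · rw [List.length_map, Finset.length_toList, hcard])
  -- greedy choice of positions
  let good : ℕ → Prop := fun m => ((dec (p m)).map Prod.fst).Nodup ∧ (dec (p m)).length = m + 1
  obtain ⟨N, hN⟩ := exists_rec (fun L =>
    if h : ∃ n, n ∈ (dec (p L.length)).map Prod.fst ∧ n ∉ L then h.choose else 0)
  have hNgood : ∀ m, good m → N m ∈ (dec (p m)).map Prod.fst ∧ N m ∉ hist N m := by
    intro m hm
    have hex : ∃ n, n ∈ (dec (p (hist N m).length)).map Prod.fst ∧ n ∉ hist N m := by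
      rw [hist_length]
      by_contra hcon
      push Not at hcon
      have hsub : ((dec (p m)).map Prod.fst).toFinset ⊆ (hist N m).toFinset := by
        intro n hn
        exact List.mem_toFinset.2 (hcon n (List.mem_toFinset.1 hn))
      have h1 := Finset.card_le_card hsub
      rw [List.toFinset_card_of_nodup hm.1, List.length_map, hm.2] at h1
      have h2 : (hist N m).toFinset.card ≤ (hist N m).length := List.toFinset_card_le _
      rw [hist_length] at h2
      omega
    have := hN m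
    rw [dif_pos hex] at this
    have hs := hex.choose_spec
    rw [← this, hist_length] at hs
    exact hs
  have hinj : ∀ m m', good m → good m' → N m = N m' → m = m' := by
    have aux : ∀ m m', m < m' → good m' → N m ≠ N m' := by
      intro m m' hlt hg heq
      apply (hNgood m' hg).2
      rw [← heq]
      unfold hist
      exact List.mem_map.2 ⟨m, List.mem_range.2 hlt, rfl⟩
    intro m m' hg hg' heq
    rcases lt_trichotomy m m' with h | h | h
    · exact absurd heq (aux m m' h hg')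
    · exact h
    · exact absurd heq.symm (aux m' m h hg)
  refine ⟨fun n => if h : ∃ j, ∃ m, good m ∧ N m = n ∧ (n, j) ∈ dec (p m) then h.choose else 0, ?_⟩
  intro x hx
  have hfr := hp x hx
  rw [Nat.frequently_atTop_iff_infinite] at hfr ⊢
  have hgm : ∀ m, x ∈ auxSet V m (dec (p m)) → good m := fun m hm =>
    ⟨(mem_auxSet hm).1, (mem_auxSet hm).2.1⟩
  refine (hfr.image (f := N) ?_).mono ?_
  · intro m hm m' hm' heq
    exact hinj m m' (hgm m hm) (hgm m' hm') heq
  · rintro n ⟨m, hm, rfl⟩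
    have hg := hgm m hm
    obtain ⟨q, hq, hq1⟩ := List.mem_map.1 (hNgood m hg).1
    have hex : ∃ j, ∃ m', good m' ∧ N m' = N m ∧ (N m, j) ∈ dec (p m') := by
      refine ⟨q.2, m, hg, rfl, ?_⟩
      rw [← hq1]
      exact hq
    show x ∈ V (N m) (if h : ∃ j, ∃ m', good m' ∧ N m' = N m ∧ (N m, j) ∈ dec (p m')
      then h.choose else 0)
    rw [dif_pos hex]
    obtain ⟨m', hg', hNm, hmem⟩ := hex.choose_spec
    have : m' = m := hinj m' m hg' hg hNm
    subst this
    exact (mem_auxSet hm).2.2 _ hmem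

/-! ### The game lemma -/

/-- Lists which are entrywise below `s`. -/
def box (s : List ℕ) : Set (List ℕ) := {σ | List.Forall₂ (· < ·) σ s}

lemma box_finite (s : List ℕ) : (box s).Finite := by
  induction s with
  | nil =>
    refine (Set.finite_singleton ([] : List ℕ)).subset ?_
    intro σ hσ
    have : List.Forall₂ (· < ·) σ ([] : List ℕ) := hσ
    simpa using this
  | cons a s ih =>
    refine ((Set.finite_Iio a).image2 List.cons ih).subset ?_
    intro σ hσ
    have h : List.Forall₂ (· < ·) σ (a :: s) := hσ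
    rw [List.forall₂_cons_right_iff] at h
    obtain ⟨b, u, hb, hu, rfl⟩ := h
    exact ⟨b, hb, u, hu, rfl⟩

lemma hist_mem_box {f h : ℕ → ℕ} {n : ℕ} (hf : ∀ m < n, f m < h m) : hist f n ∈ box (hist h n) := by
  show List.Forall₂ (· < ·) _ _
  unfold hist
  rw [List.forall₂_map_left_iff, List.forall₂_map_right_iff, List.forall₂_same]
  intro m hm
  exact hf m (List.mem_range.1 hm)

variable (G : List ℕ → ℕ → Set α)

/-- Points which, for every history in the box, are in one of the first `c` sets. -/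
def Cset (s : List ℕ) (c : ℕ) : Set α := ⋂ σ ∈ box s, ⋃ j ∈ Iio c, G σ j

variable {G}

lemma Cset_open (hG : ∀ σ j, IsOpen (G σ j)) (s : List ℕ) (c : ℕ) : IsOpen (Cset G s c) :=
  (box_finite s).isOpen_biInter (fun σ _ => isOpen_biUnion (fun j _ => hG σ j))

omit [TopologicalSpace α] in
lemma Cset_mono (s : List ℕ) {c d : ℕ} (h : c ≤ d) : Cset G s c ⊆ Cset G s d := by
  intro x hx
  refine mem_iInter₂.2 (fun σ hσ => ?_)
  obtain ⟨j, hj, hxj⟩ := mem_iUnion₂.1 (mem_iInter₂.1 hx σ hσ)
  exact mem_iUnion₂.2 ⟨j, lt_of_lt_of_le (mem_Iio.1 hj) h, hxj⟩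

omit [TopologicalSpace α] in
lemma Cset_cover (hc : ∀ σ, X ⊆ ⋃ j, G σ j) {x : α} (hx : x ∈ X) (s : List ℕ) :
    ∀ᶠ c in atTop, x ∈ Cset G s c := by
  have : ∀ σ ∈ box s, ∀ᶠ c in atTop, x ∈ ⋃ j ∈ Iio c, G σ j := by
    intro σ _
    obtain ⟨j, hj⟩ := mem_iUnion.1 (hc σ hx)
    filter_upwards [eventually_gt_atTop j] with c hc
    exact mem_iUnion₂.2 ⟨j, hc, hj⟩
  have h2 := (eventually_all_finite (box_finite s)).2 this
  filter_upwards [h2] with c hc
  exact mem_iInter₂.2 hc

variable (G)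

/-- Open sets which bound the branches along which `Cset` fails. -/
def Phi : ℕ → List ℕ → ℕ → Set α
  | 0, t, c => Cset G t c
  | r + 1, t, c => ⋃ d, (Cset G t d ∩ ⋂ a ∈ Iio d, Phi r (t ++ [a]) c)

variable {G}

lemma Phi_open (hG : ∀ σ j, IsOpen (G σ j)) : ∀ (r : ℕ) (t : List ℕ) (c : ℕ), IsOpen (Phi G r t c)
  | 0, t, c => Cset_open hG t c
  | r + 1, t, c => by
    unfold Phi
    refine isOpen_iUnion (fun d => (Cset_open hG t d).inter ?_)
    exact (Set.finite_Iio d).isOpen_biInter (fun a _ => Phi_open hG r _ c)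

omit [TopologicalSpace α] in
lemma Phi_cover (hc : ∀ σ, X ⊆ ⋃ j, G σ j) {x : α} (hx : x ∈ X) :
    ∀ (r : ℕ) (t : List ℕ), ∀ᶠ c in atTop, x ∈ Phi G r t c
  | 0, t => Cset_cover hc hx t
  | r + 1, t => by
    obtain ⟨d, hd⟩ := (Cset_cover hc hx t).exists
    have : ∀ a ∈ Iio d, ∀ᶠ c in atTop, x ∈ Phi G r (t ++ [a]) c := fun a _ =>
      Phi_cover hc hx r _
    filter_upwards [(eventually_all_finite (Set.finite_Iio d)).2 this] with c hcc
    unfold Phi
    exact mem_iUnion.2 ⟨d, hd, mem_iInter₂.2 hcc⟩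

omit [TopologicalSpace α] in
lemma Phi_bound {h : ℕ → ℕ} {x : α} {c : ℕ} : ∀ (r m : ℕ), x ∈ Phi G r (hist h m) c →
    (∀ i, m ≤ i → i ≤ m + r → x ∉ Cset G (hist h i) (h i)) → h (m + r) < c
  | 0, m, hx, hn => by
    by_contra hcon
    push Not at hcon
    exact hn m le_rfl (by omega) (Cset_mono _ hcon hx)
  | r + 1, m, hx, hn => by
    unfold Phi at hx
    obtain ⟨d, hd, hx2⟩ := mem_iUnion.1 hx
    have hlt : h m < d := by
      by_contra hcon
      push Not at hcon
      exact hn m le_rfl (by omega) (Cset_mono _ hcon hd)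
    have h3 := mem_iInter₂.1 hx2 (h m) hlt
    rw [← hist_succ] at h3
    have h4 := Phi_bound r (m + 1) h3 (fun i hi1 hi2 => hn i (by omega) (by omega))
    have : m + (r + 1) = m + 1 + r := by omega
    rw [this]
    exact h4

/-- There is a bounding function. -/
lemma exists_bound (hX : RothSeq X) (hG : ∀ σ j, IsOpen (G σ j)) (hc : ∀ σ, X ⊆ ⋃ j, G σ j) :
    ∃ h : ℕ → ℕ, (∀ n, 0 < h n) ∧ ∀ x ∈ X, ∃ᶠ n in atTop, x ∈ Cset G (hist h n) (h n) := by
  let T : ℕ → Set (List ℕ) := fun n => {t | Encodable.encode t ≤ n}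
  have hT : ∀ n, (T n).Finite := fun n =>
    (Set.finite_Iic n).preimage (Encodable.encode_injective.injOn)
  obtain ⟨ψ, hψ⟩ := hX.io (fun n c => ⋂ t ∈ T n, Phi G (n - t.length) t c)
    (fun n c => (hT n).isOpen_biInter (fun t _ => Phi_open hG _ _ _)) (by
      intro n x hx
      have : ∀ t ∈ T n, ∀ᶠ c in atTop, x ∈ Phi G (n - t.length) t c := fun t _ =>
        Phi_cover hc hx _ _
      obtain ⟨c, hcc⟩ := ((eventually_all_finite (hT n)).2 this).exists
      exact mem_iUnion.2 ⟨c, mem_iInter₂.2 hcc⟩)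
  refine ⟨fun n => ψ n + 1, fun n => Nat.succ_pos _, ?_⟩
  intro x hx
  by_contra hcon
  rw [not_frequently] at hcon
  obtain ⟨n0, hn0⟩ := eventually_atTop.1 hcon
  set h : ℕ → ℕ := fun n => ψ n + 1 with hh
  obtain ⟨n, hn1, hn2⟩ := (frequently_atTop.1 (hψ x hx)) (max n0 (Encodable.encode (hist h n0)))
  have hn3 : n0 ≤ n := le_trans (le_max_left _ _) hn1
  have hn4 : Encodable.encode (hist h n0) ≤ n := le_trans (le_max_right _ _) hn1
  have h5 : x ∈ Phi G (n - (hist h n0).length) (hist h n0) (ψ n) :=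
    mem_iInter₂.1 hn2 (hist h n0) hn4
  rw [hist_length] at h5
  have h6 := Phi_bound (h := h) (n - n0) n0 h5 (fun i hi1 _ => hn0 i hi1)
  have h7 : n0 + (n - n0) = n := by omega
  rw [h7] at h6
  simp only [hh] at h6
  omega

/-- Pawlikowski's theorem, infinitely often: in the Rothberger game on a Rothberger set, every
strategy of the covering player is beaten by some play in which every point is covered infinitely
often. -/
theorem game (hX : RothSeq X) (hG : ∀ σ j, IsOpen (G σ j)) (hc : ∀ σ, X ⊆ ⋃ j, G σ j) :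
    ∃ f : ℕ → ℕ, ∀ x ∈ X, ∃ᶠ n in atTop, x ∈ G (hist f n) (f n) := by
  classical
  obtain ⟨h, hpos, hh⟩ := exists_bound hX hG hc
  have hfin : ∀ s, Finite (box s) := fun s => (box_finite s).to_subtype
  have hsurj : ∀ n, ∃ e : ℕ → ((box (hist h n)) → Fin (h n)), Function.Surjective e := by
    intro n
    have : Nonempty (Fin (h n)) := ⟨⟨0, hpos n⟩⟩
    exact exists_surjective_nat _
  choose e he using hsurj
  obtain ⟨g, hg⟩ := hX.select (fun n j => ⋂ σ : box (hist h n), G σ (e n j σ))
    (fun n j => isOpen_iInter_of_finite (fun σ => hG _ _)) (by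
      intro x hx
      refine (hh x hx).mono ?_
      intro n hn
      have h1 : ∀ σ : box (hist h n), ∃ j : Fin (h n), x ∈ G σ j := by
        rintro ⟨σ, hσ⟩
        obtain ⟨j, hj, hxj⟩ := mem_iUnion₂.1 (mem_iInter₂.1 hn σ hσ)
        exact ⟨⟨j, hj⟩, hxj⟩
      choose E hE using h1
      obtain ⟨j, hj⟩ := he n E
      exact ⟨j, mem_iInter.2 (fun σ => by rw [hj]; exact hE σ)⟩)
  obtain ⟨f, hf⟩ := exists_rec (fun L =>
    if hL : L ∈ box (hist h L.length) then ((e L.length (g L.length) ⟨L, hL⟩ : Fin _) : ℕ) else 0)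
  have hlt : ∀ n, f n < h n := by
    intro n
    rw [hf n]
    split_ifs with hL
    · exact lt_of_lt_of_eq (e (hist f n).length (g (hist f n).length) ⟨hist f n, hL⟩).2
        (congrArg h (hist_length f n))
    · exact hpos n
  have hbox : ∀ n, hist f n ∈ box (hist h n) := fun n => hist_mem_box (fun m _ => hlt m)
  refine ⟨f, fun x hx => (hg x hx).mono ?_⟩
  intro n hn
  have h1 := mem_iInter.1 hn ⟨hist f n, hbox n⟩
  have h2 : f n = ((e n (g n) ⟨hist f n, hbox n⟩ : Fin _) : ℕ) := by
    have h3 := hf n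
    have hL : hist f n ∈ box (hist h (hist f n).length) := by
      rw [hist_length]; exact hbox n
    rw [dif_pos hL] at h3
    rw [h3]
    have key : ∀ m (hm : m = n) (hL' : hist f n ∈ box (hist h m)),
        ((e m (g m) ⟨hist f n, hL'⟩ : Fin _) : ℕ) = ((e n (g n) ⟨hist f n, hbox n⟩ : Fin _) : ℕ) := by
      intro m hm hL'
      subst hm
      rfl
    exact key _ (hist_length f n) hL
  rw [h2]
  exact h1

end Pool.Agent.Roth
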