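import Pool.Agent.Lib_helper10.Roth.Reals

namespace Pool.Agent.Roth

open Filter Set

/-- The block structure given by the squares. -/
def squareBlocks : Set (List ℕ) := {σ | IsSquare σ.length}

lemma squareBlocks_blocking : IsBlocking squareBlocks := by
  intro f
  rw [frequently_atTop]
  intro r
  refine ⟨r * r, Nat.le_mul_self r, ?_⟩
  show IsSquare (hist f (r * r)).length
  rw [hist_length]
  exact ⟨r, rfl⟩

/-- `π` constantly predicts `f`: for some `k`, it predicts `f` at least once in almost every
interval of length `k`. -/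
def ConstPredicts (π : List ℕ → ℕ) (f : ℕ → ℕ) : Prop :=
  ∃ k, ∀ᶠ i in atTop, ∃ j, i ≤ j ∧ j < i + k ∧ f j = π (hist f j)

/-- The constant evasion number. -/
noncomputable def constEvasion : Cardinal.{0} :=
  sInf {κ | ∃ F : Set (ℕ → ℕ), (∀ π : List ℕ → ℕ, ∃ f ∈ F, ¬ ConstPredicts π f) ∧
    Cardinal.mk F = κ}

/-- The least size of a family of functions which is not localized by a single slalom; by
Bartoszynski's theorem this is the additivity of the null ideal. -/
noncomputable def slalomNumber : Cardinal.{0} :=
  sInf {κ | ∃ F : Set (ℕ → ℕ), (∀ S : ℕ → Finset ℕ, (∀ n, (S n).card ≤ n) →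
    ∃ f ∈ F, ¬ ∀ᶠ n in atTop, f n ∈ S n) ∧ Cardinal.mk F = κ}

lemma ConstPredicts.squares {π : List ℕ → ℕ} {f : ℕ → ℕ} (h : ConstPredicts π f) :
    Predicts squareBlocks π f := by
  obtain ⟨k, hk⟩ := h
  unfold Predicts
  filter_upwards [hk, eventually_ge_atTop (k * k)] with n hn hn2 hsq
  obtain ⟨j, hj1, hj2, hj3⟩ := hn
  refine ⟨j, hj1, ?_, hj3⟩
  intro i hi1 hi2 hi3
  obtain ⟨r, hr⟩ : IsSquare (hist f n).length := hsq
  obtain ⟨s, hs⟩ : IsSquare (hist f i).length := hi3
  rw [hist_length] at hr hs
  have h1 : k ≤ r := by
    by_contra hcon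
    push Not at hcon
    nlinarith
  have h2 : r < s := by
    by_contra hcon
    push Not at hcon
    nlinarith
  have h3 : (r + 1) * (r + 1) ≤ s * s := Nat.mul_self_le_mul_self h2
  nlinarith

lemma evasion_set_nonempty (T : Set (List ℕ)) (hT : IsBlocking T) :
    {κ | ∃ F : Set (ℕ → ℕ), (∀ π : List ℕ → ℕ, ∃ f ∈ F, ¬ Predicts T π f) ∧
      Cardinal.mk F = κ}.Nonempty := by
  refine ⟨_, univ, ?_, rfl⟩
  intro π
  obtain ⟨f, hf⟩ := exists_rec (fun L => π L + 1)
  refine ⟨f, mem_univ _, ?_⟩
  intro h
  obtain ⟨n, hn1, hn2⟩ := ((hT f).and_eventually h).exists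
  obtain ⟨m, -, -, hm⟩ := hn2 hn1
  rw [hf m] at hm
  omega

theorem constEvasion_le : constEvasion ≤ evasion squareBlocks := by
  unfold evasion
  apply le_csInf (evasion_set_nonempty _ squareBlocks_blocking)
  rintro κ ⟨F, hF, rfl⟩
  apply csInf_le'
  refine ⟨F, ?_, rfl⟩
  intro π
  obtain ⟨f, hf1, hf2⟩ := hF π
  exact ⟨f, hf1, fun h => hf2 h.squares⟩

/-- The code of the restriction of `f` to the `k`-th square block. -/
def blockCode (f : ℕ → ℕ) (k : ℕ) : ℕ :=
  Encodable.encode ((hist f ((k + 1) * (k + 1))).drop (k * k))

/-- The members of the `k`-th set of the slalom compatible with the history `σ`. -/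
def compat (S : ℕ → Finset ℕ) (k : ℕ) (σ : List ℕ) : Finset ℕ :=
  (S k).filter (fun c => ((Encodable.decode (α := List ℕ) c).getD []).take (σ.length - k * k) =
    σ.drop (k * k))

/-- The number of compatible members whose next value is `v`. -/
def votes (S : ℕ → Finset ℕ) (k : ℕ) (σ : List ℕ) (v : ℕ) : ℕ :=
  ((compat S k σ).filter (fun c =>
    ((Encodable.decode (α := List ℕ) c).getD []).getD (σ.length - k * k) 0 = v)).card

lemma exists_max_votes (S : ℕ → Finset ℕ) (k : ℕ) (σ : List ℕ) :
    ∃ v, ∀ v', votes S k σ v' ≤ votes S k σ v := by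
  have hb : ∀ v, votes S k σ v ≤ (compat S k σ).card := fun v => Finset.card_filter_le _ _
  have hfin : (range (votes S k σ)).Finite :=
    (Set.finite_Iic (compat S k σ).card).subset (by rintro _ ⟨v, rfl⟩; exact hb v)
  obtain ⟨w, ⟨v, hv⟩, hmax⟩ := hfin.exists_maximal (range_nonempty _)
  refine ⟨v, fun v' => ?_⟩
  rw [hv]
  by_contra hcon
  push Not at hcon
  exact absurd (hmax (mem_range_self v') hcon.le) (not_le.2 hcon)

lemma predicts_of_localized (S : ℕ → Finset ℕ) (hS : ∀ n, (S n).card ≤ n) :
    ∃ π : List ℕ → ℕ, ∀ f : ℕ → ℕ, (∀ᶠ k in atTop, blockCode f k ∈ S k) →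
      Predicts squareBlocks π f := by
  classical
  choose best hbest using exists_max_votes S
  refine ⟨fun σ => best (Nat.sqrt σ.length) σ, ?_⟩
  intro f hf
  obtain ⟨k0, hk0⟩ := eventually_atTop.1 hf
  unfold Predicts
  filter_upwards [eventually_ge_atTop (k0 * k0)] with n hn hsq
  obtain ⟨k, hk⟩ : IsSquare (hist f n).length := hsq
  rw [hist_length] at hk
  subst hk
  have hkk : k0 ≤ k := by
    by_contra hcon
    push Not at hcon
    nlinarith
  have hmem := hk0 k hkk
  by_contra hno
  push Not at hno
  -- the prediction fails in the whole block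
  have hfail : ∀ m, k * k ≤ m → m < (k + 1) * (k + 1) → f m ≠ best k (hist f m) := by
    intro m hm1 hm2
    have h1 := hno m hm1 (by
      intro i hi1 hi2 hi3
      obtain ⟨s, hs⟩ : IsSquare (hist f i).length := hi3
      rw [hist_length] at hs
      have h2 : k < s := by
        by_contra hcon
        push Not at hcon
        nlinarith
      have h3 : (k + 1) * (k + 1) ≤ s * s := Nat.mul_self_le_mul_self h2
      omega)
    have h2 : Nat.sqrt (hist f m).length = k := by
      rw [hist_length]
      exact (Nat.eq_sqrt.2 ⟨hm1, hm2⟩).symm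
    rw [h2] at h1
    exact h1
  -- decoding facts
  have hdec : (Encodable.decode (α := List ℕ) (blockCode f k)).getD [] =
      (hist f ((k + 1) * (k + 1))).drop (k * k) := by
    unfold blockCode
    rw [Encodable.encodek]
    rfl
  have hcompat : ∀ m, k * k ≤ m → m ≤ (k + 1) * (k + 1) → blockCode f k ∈ compat S k (hist f m) := by
    intro m hm1 hm2
    unfold compat
    rw [Finset.mem_filter]
    refine ⟨hmem, ?_⟩
    rw [hdec, hist_length, ← hist_take f hm2, List.drop_take]
  have hhalf : ∀ d, k * k + d ≤ (k + 1) * (k + 1) →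
      (compat S k (hist f (k * k + d))).card * 2 ^ d ≤ k := by
    intro d
    induction d with
    | zero =>
      intro _
      rw [pow_zero, mul_one]
      exact le_trans (Finset.card_filter_le _ _) (hS k)
    | succ d ih =>
      intro hd
      have ih' := ih (by omega)
      set m := k * k + d with hm
      have hm1 : k * k ≤ m := by omega
      have hm2 : m < (k + 1) * (k + 1) := by omega
      have hsucc : k * k + (d + 1) = m + 1 := by omega
      rw [hsucc]
      -- the new compatible set is contained in the voters of `f m`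
      have hsub : compat S k (hist f (m + 1)) ⊆ (compat S k (hist f m)).filter (fun c =>
          ((Encodable.decode (α := List ℕ) c).getD []).getD ((hist f m).length - k * k) 0 = f m) := by
        intro c hc
        unfold compat at hc ⊢
        rw [Finset.mem_filter, hist_length] at hc
        rw [Finset.mem_filter, Finset.mem_filter, hist_length]
        obtain ⟨hc1, hc2⟩ := hc
        set l := (Encodable.decode (α := List ℕ) c).getD [] with hl
        have e1 : m + 1 - k * k = (m - k * k) + 1 := by omega
        have e2 : (hist f (m + 1)).drop (k * k) = (hist f m).drop (k * k) ++ [f m] := by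
          rw [hist_succ, List.drop_append_of_le_length (by rw [hist_length]; exact hm1)]
        rw [e1, e2] at hc2
        have e3 : ((hist f m).drop (k * k)).length = m - k * k := by
          rw [List.length_drop, hist_length]
        refine ⟨⟨hc1, ?_⟩, ?_⟩
        · have h4 := congrArg (List.take (m - k * k)) hc2
          rw [List.take_take, min_eq_left (Nat.le_succ _), List.take_append_of_le_length (by
            rw [e3]), ← e3, List.take_length, e3] at h4
          exact h4
        · have h5 := congrArg (fun l : List ℕ => l.getD (m - k * k) 0) hc2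
          rw [getD_take_of_lt (Nat.lt_succ_self _)] at h5
          rw [h5, List.getD_eq_getElem?_getD, List.getElem?_append_right (by rw [e3]), e3]
          simp
      have hv1 : (compat S k (hist f (m + 1))).card ≤ votes S k (hist f m) (f m) :=
        Finset.card_le_card hsub
      have hv2 : votes S k (hist f m) (f m) ≤ votes S k (hist f m) (best k (hist f m)) :=
        hbest k (hist f m) (f m)
      have hv3 : votes S k (hist f m) (f m) + votes S k (hist f m) (best k (hist f m)) ≤
          (compat S k (hist f m)).card := by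
        unfold votes
        rw [← Finset.card_union_of_disjoint]
        · exact Finset.card_le_card (Finset.union_subset (Finset.filter_subset _ _)
            (Finset.filter_subset _ _))
        · rw [Finset.disjoint_filter]
          intro c _ h1 h2
          exact hfail m hm1 hm2 (h1.symm.trans h2)
      calc (compat S k (hist f (m + 1))).card * 2 ^ (d + 1)
          = (2 * (compat S k (hist f (m + 1))).card) * 2 ^ d := by ring
        _ ≤ (compat S k (hist f m)).card * 2 ^ d := by
            apply Nat.mul_le_mul_right
            omega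
        _ ≤ k := ih'
  have hend := hhalf (2 * k + 1) (by nlinarith)
  have e : k * k + (2 * k + 1) = (k + 1) * (k + 1) := by ring
  rw [e] at hend
  have hpos : 0 < (compat S k (hist f ((k + 1) * (k + 1)))).card :=
    Finset.card_pos.2 ⟨_, hcompat _ (by nlinarith) le_rfl⟩
  have h2k : k < 2 ^ k := Nat.lt_two_pow_self
  have h2k' : 2 ^ k ≤ 2 ^ (2 * k + 1) := Nat.pow_le_pow_right (by norm_num) (by omega)
  nlinarith

theorem slalomNumber_le : slalomNumber ≤ evasion squareBlocks := by
  unfold evasion
  apply le_csInf (evasion_set_nonempty _ squareBlocks_blocking)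
  rintro κ ⟨F, hF, rfl⟩
  by_contra hcon
  push Not at hcon
  have hlt : Cardinal.mk (blockCode '' F) < slalomNumber :=
    lt_of_le_of_lt Cardinal.mk_image_le hcon
  have := notMem_of_lt_csInf' hlt
  apply this
  refine ⟨blockCode '' F, ?_, rfl⟩
  intro S hS
  obtain ⟨π, hπ⟩ := predicts_of_localized S hS
  obtain ⟨f, hf1, hf2⟩ := hF π
  exact ⟨blockCode f, mem_image_of_mem _ hf1, fun h => hf2 (hπ f h)⟩

end Pool.Agent.Roth
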