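import Pool.Agent.Lib_helper10.Roth.Union

namespace Pool.Agent.Roth

open Filter Set

/-- The Rothberger property `S_1(O,O)` of a set of reals. -/
def Rothberger (X : Set ℝ) : Prop :=
  ∀ U : ℕ → Set (Set ℝ), (∀ n, (U n).Nonempty) → (∀ n, ∀ u ∈ U n, IsOpen u) →
    (∀ n, X ⊆ ⋃₀ U n) → ∃ V : ℕ → Set ℝ, (∀ n, V n ∈ U n) ∧ X ⊆ ⋃ n, V n

lemma rothberger_iff (X : Set ℝ) : Rothberger X ↔ RothSeq X := by
  constructor
  · intro h G hG hc
    obtain ⟨V, hV, hXV⟩ := h (fun n => range (G n)) (fun n => range_nonempty _)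
      (by rintro n u ⟨j, rfl⟩; exact hG n j) (by
        intro n
        rw [sUnion_range]
        exact hc n)
    choose g hg using hV
    refine ⟨g, ?_⟩
    intro x hx
    obtain ⟨n, hn⟩ := mem_iUnion.1 (hXV hx)
    exact mem_iUnion.2 ⟨n, by rw [hg n]; exact hn⟩
  · intro h U hne hop hc
    have h1 : ∀ n, ∃ g : ℕ → Set ℝ, (∀ j, g j ∈ U n) ∧ X ⊆ ⋃ j, g j := by
      intro n
      obtain ⟨S, hS1, hS2, hS3⟩ := TopologicalSpace.isOpen_sUnion_countable (U n) (hop n)
      obtain ⟨u0, hu0⟩ := hne n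
      have hcount : (insert u0 S).Countable := hS1.insert u0
      obtain ⟨g, hg⟩ := hcount.exists_eq_range (insert_nonempty _ _)
      refine ⟨g, ?_, ?_⟩
      · intro j
        have : g j ∈ insert u0 S := by rw [hg]; exact mem_range_self j
        rcases this with h | h
        · rw [h]; exact hu0
        · exact hS2 h
      · intro x hx
        have hx2 : x ∈ ⋃₀ S := by rw [hS3]; exact hc n hx
        obtain ⟨u, hu1, hu2⟩ := hx2
        have : u ∈ range g := by rw [← hg]; exact mem_insert_of_mem _ hu1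
        obtain ⟨j, rfl⟩ := this
        exact mem_iUnion.2 ⟨j, hu2⟩
    choose G hG1 hG2 using h1
    obtain ⟨g, hg⟩ := h G (fun n j => hop n _ (hG1 n j)) hG2
    exact ⟨fun n => G n (g n), fun n => hG1 n _, hg⟩

lemma rothberger_singleton (x : ℝ) : Rothberger {x} := by
  rw [rothberger_iff]
  intro G hG hc
  obtain ⟨j, hj⟩ := mem_iUnion.1 (hc 0 (mem_singleton x))
  refine ⟨fun _ => j, ?_⟩
  intro y hy
  rw [mem_singleton_iff] at hy
  subst hy
  exact mem_iUnion.2 ⟨0, hj⟩

lemma not_rothberger_univ : ¬ Rothberger (univ : Set ℝ) := by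
  rw [rothberger_iff]
  intro h
  obtain ⟨g, hg⟩ := h (fun n j => Metric.ball (TopologicalSpace.denseSeq ℝ j) ((1 / 2 : ℝ) ^ n))
    (fun n j => Metric.isOpen_ball) (by
      intro n x _
      have hd := TopologicalSpace.denseRange_denseSeq ℝ
      obtain ⟨j, hj⟩ := hd.exists_dist_lt x (ε := (1 / 2 : ℝ) ^ n) (by positivity)
      exact mem_iUnion.2 ⟨j, hj⟩)
  have h1 : MeasureTheory.volume (univ : Set ℝ) ≤
      ∑' n, MeasureTheory.volume (Metric.ball (TopologicalSpace.denseSeq ℝ (g n))
        ((1 / 2 : ℝ) ^ n)) :=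
    le_trans (MeasureTheory.measure_mono hg) (MeasureTheory.measure_iUnion_le _)
  have h2 : ∀ n : ℕ, MeasureTheory.volume (Metric.ball (TopologicalSpace.denseSeq ℝ (g n))
        ((1 / 2 : ℝ) ^ n)) = 2 * (1 / 2 : ENNReal) ^ n := by
    intro n
    rw [Real.volume_ball, ENNReal.ofReal_mul (by norm_num), ENNReal.ofReal_pow (by norm_num)]
    congr 1
    · simp
    · congr 1
      rw [ENNReal.ofReal_div_of_pos (by norm_num)]
      simp
  rw [tsum_congr h2, ENNReal.tsum_mul_left, ENNReal.tsum_geometric, Real.volume_univ] at h1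
  have h3 : (2 : ENNReal) * (1 - 1 / 2)⁻¹ ≠ ⊤ := by
    apply ENNReal.mul_ne_top (by norm_num)
    rw [ENNReal.inv_ne_top]
    simp
  exact h3 (top_le_iff.1 h1)

/-- The additivity number of the Rothberger property. -/
noncomputable def addRothberger : Cardinal.{0} :=
  sInf {κ | ∃ F : Set (Set ℝ), (∀ X ∈ F, Rothberger X) ∧ ¬ Rothberger (⋃₀ F) ∧
    Cardinal.mk F = κ}

/-- The evasion number of the block structure `T`: the least size of a family of functions which
is not predicted in `T`-blocks by a single predictor. -/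
noncomputable def evasion (T : Set (List ℕ)) : Cardinal.{0} :=
  sInf {κ | ∃ F : Set (ℕ → ℕ), (∀ π : List ℕ → ℕ, ∃ f ∈ F, ¬ Predicts T π f) ∧
    Cardinal.mk F = κ}

theorem evasion_le (T : Set (List ℕ)) (hT : IsBlocking T) : evasion T ≤ addRothberger := by
  unfold addRothberger
  apply le_csInf
  · refine ⟨_, range (fun x : ℝ => ({x} : Set ℝ)), ?_, ?_, rfl⟩
    · rintro X ⟨x, rfl⟩
      exact rothberger_singleton x
    · have : ⋃₀ range (fun x : ℝ => ({x} : Set ℝ)) = univ := by
        rw [sUnion_range]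
        exact iUnion_of_singleton ℝ
      rw [this]
      exact not_rothberger_univ
  · rintro κ ⟨F, hF1, hF2, rfl⟩
    by_contra hcon
    push Not at hcon
    apply hF2
    rw [rothberger_iff, sUnion_eq_iUnion]
    apply union_roth hT
    · intro f
      have hlt : Cardinal.mk (range f) < evasion T := lt_of_le_of_lt Cardinal.mk_range_le hcon
      have := notMem_of_lt_csInf' hlt
      by_contra hno
      push Not at hno
      apply this
      refine ⟨range f, ?_, rfl⟩
      intro π
      obtain ⟨i, hi⟩ := hno π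
      exact ⟨f i, mem_range_self i, hi⟩
    · rintro ⟨X, hX⟩
      exact (rothberger_iff X).1 (hF1 X hX)

end Pool.Agent.Roth
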