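import Pool.Agent.Lib_helper10.Roth.Game

namespace Pool.Agent.Roth

open Filter Set

variable {α : Type*} [TopologicalSpace α] {X : Set α}

/-- `T` is a set of finite sequences which every infinite sequence of natural numbers meets
infinitely often. -/
def IsBlocking (T : Set (List ℕ)) : Prop := ∀ f : ℕ → ℕ, ∃ᶠ n in atTop, hist f n ∈ T

/-- `π` predicts `f` in almost every `T`-block: for almost every `n` with `f|n ∈ T` there is
`m ≥ n`, before the next member of `T` on `f`, with `f m = π (f|m)`. -/
def Predicts (T : Set (List ℕ)) (π : List ℕ → ℕ) (f : ℕ → ℕ) : Prop :=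
  ∀ᶠ n in atTop, hist f n ∈ T →
    ∃ m, n ≤ m ∧ (∀ i, n < i → i ≤ m → hist f i ∉ T) ∧ f m = π (hist f m)

lemma getD_take_of_lt {l : List ℕ} {n m : ℕ} (h : m < n) : (l.take n).getD m 0 = l.getD m 0 := by
  simp only [List.getD_eq_getElem?_getD]
  rw [List.getElem?_take_of_lt h]

/-- Every finite sequence has a proper extension in `T` by a block without inner points in `T`
that follows given moves. -/
lemma exists_block {T : Set (List ℕ)} (hT : IsBlocking T) (σ : List ℕ) (step : List ℕ → ℕ) :
    ∃ w : ℕ → ℕ, hist w σ.length = σ ∧ (∀ n, σ.length ≤ n → w n = step (hist w n)) ∧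
      ∃ N, σ.length < N ∧ hist w N ∈ T ∧ ∀ i, σ.length < i → i < N → hist w i ∉ T := by
  classical
  obtain ⟨w, hw⟩ := exists_rec (fun L => if L.length < σ.length then σ.getD L.length 0 else step L)
  have h1 : ∀ m < σ.length, w m = σ.getD m 0 := by
    intro m hm
    rw [hw m, hist_length, if_pos hm]
  have h2 : hist w σ.length = σ := by
    apply List.ext_getElem
    · simp
    · intro i hi1 hi2
      rw [hist_length] at hi1
      simp only [hist, List.getElem_map, List.getElem_range]
      rw [h1 i hi1, List.getD_eq_getElem?_getD, List.getElem?_eq_getElem hi2]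
      rfl
  refine ⟨w, h2, ?_, ?_⟩
  · intro n hn
    have := hw n
    rw [hist_length, if_neg (by omega)] at this
    exact this
  · have hex : ∃ N, σ.length < N ∧ hist w N ∈ T := by
      obtain ⟨N, hN1, hN2⟩ := frequently_atTop.1 (hT w) (σ.length + 1)
      exact ⟨N, hN1, hN2⟩
    refine ⟨Nat.find hex, (Nat.find_spec hex).1, (Nat.find_spec hex).2, ?_⟩
    intro i hi1 hi2 hi3
    exact Nat.find_min hex hi2 ⟨hi1, hi3⟩

/-- `σ'` is the next member of `T` after `σ` on some branch. -/
def Next (T : Set (List ℕ)) (σ σ' : List ℕ) : Prop :=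
  σ.length < σ'.length ∧ σ'.take σ.length = σ ∧ σ' ∈ T ∧
    ∀ i, σ.length < i → i < σ'.length → σ'.take i ∉ T

lemma hist_take (w : ℕ → ℕ) {i n : ℕ} (h : i ≤ n) : (hist w n).take i = hist w i := by
  unfold hist
  rw [← List.map_take, List.take_range, min_eq_left h]

lemma exists_next {T : Set (List ℕ)} (hT : IsBlocking T) (σ : List ℕ) : ∃ σ', Next T σ σ' := by
  obtain ⟨w, hw1, -, N, hN1, hN2, hN3⟩ := exists_block hT σ (fun _ => 0)
  refine ⟨hist w N, by simpa using hN1, ?_, hN2, ?_⟩
  · rw [hist_take w hN1.le, hw1]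
  · intro i hi1 hi2
    rw [hist_length] at hi2
    rw [hist_take w hi2.le]
    exact hN3 i hi1 hi2

/-- Block version of Pawlikowski's theorem. -/
theorem block_game {T : Set (List ℕ)} (hT : IsBlocking T) (hX : RothSeq X)
    {G : List ℕ → ℕ → Set α} (hG : ∀ σ j, IsOpen (G σ j)) (hc : ∀ σ, X ⊆ ⋃ j, G σ j) :
    ∃ f : ℕ → ℕ, ∀ x ∈ X, ∃ᶠ n in atTop, hist f n ∈ T ∧
      ∀ m, n ≤ m → (∀ i, n < i → i ≤ m → hist f i ∉ T) → x ∈ G (hist f m) (f m) := by
  classical
  obtain ⟨dec, hdec⟩ := exists_surjective_nat (List ℕ)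
  choose nx hnx using exists_next hT
  -- the next history determined by a move
  let mv : List ℕ → ℕ → List ℕ := fun σ c => if Next T σ (dec c) then dec c else nx σ
  have hmv : ∀ σ c, Next T σ (mv σ c) := by
    intro σ c
    show Next T σ (if Next T σ (dec c) then dec c else nx σ)
    split_ifs with h
    · exact h
    · exact hnx σ
  let H : List ℕ → List ℕ := fun τ => τ.foldl mv []
  have hH : ∀ τ c, H (τ ++ [c]) = mv (H τ) c := by
    intro τ c
    show (τ ++ [c]).foldl mv [] = mv (τ.foldl mv []) c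
    rw [List.foldl_append]
    rfl
  let G' : List ℕ → ℕ → Set α := fun τ c =>
    ⋂ i ∈ Finset.Ico (H τ).length (mv (H τ) c).length,
      G ((mv (H τ) c).take i) ((mv (H τ) c).getD i 0)
  obtain ⟨F, hF⟩ := game (G := G') hX (fun τ c => isOpen_biInter_finset (fun i _ => hG _ _)) (by
    intro τ x hx
    have hch : ∀ L : List ℕ, ∃ j, x ∈ G L j := fun L => mem_iUnion.1 (hc L hx)
    choose step hstep using hch
    obtain ⟨w, hw1, hw2, N, hN1, hN2, hN3⟩ := exists_block hT (H τ) step
    obtain ⟨c, hcd⟩ := hdec (hist w N)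
    have hnext : Next T (H τ) (hist w N) := by
      refine ⟨by simpa using hN1, ?_, hN2, ?_⟩
      · rw [hist_take w hN1.le, hw1]
      · intro i hi1 hi2
        rw [hist_length] at hi2
        rw [hist_take w hi2.le]
        exact hN3 i hi1 hi2
    have hmvc : mv (H τ) c = hist w N := by
      show (if Next T (H τ) (dec c) then dec c else nx (H τ)) = _
      rw [hcd, if_pos hnext]
    refine mem_iUnion.2 ⟨c, ?_⟩
    show x ∈ ⋂ i ∈ Finset.Ico (H τ).length (mv (H τ) c).length,
      G ((mv (H τ) c).take i) ((mv (H τ) c).getD i 0)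
    rw [hmvc]
    refine mem_iInter₂.2 (fun i hi => ?_)
    rw [Finset.mem_Ico, hist_length] at hi
    rw [hist_take w hi.2.le, hist_getD w hi.2, hw2 i hi.1]
    exact hstep _)
  -- the limit branch
  let K : ℕ → List ℕ := fun k => H (hist F k)
  have hK0 : K 0 = [] := rfl
  have hKs : ∀ k, K (k + 1) = mv (K k) (F k) := by
    intro k
    show H (hist F (k + 1)) = mv (H (hist F k)) (F k)
    rw [hist_succ, hH]
  have hKn : ∀ k, Next T (K k) (K (k + 1)) := fun k => by
    rw [hKs]; exact hmv _ _
  have hlen : ∀ k, (K k).length < (K (k + 1)).length := fun k => (hKn k).1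
  have hmono : StrictMono (fun k => (K k).length) := strictMono_nat_of_lt_succ hlen
  have hle : ∀ k, k ≤ (K k).length := fun k => hmono.le_apply
  have htake : ∀ k l, k ≤ l → (K l).take (K k).length = K k := by
    intro k l hkl
    induction l, hkl using Nat.le_induction with
    | base => exact List.take_length
    | succ l hkl ih =>
      have h1 : (K k).length ≤ (K l).length := hmono.monotone hkl
      calc (K (l + 1)).take (K k).length
          = ((K (l + 1)).take (K l).length).take (K k).length := by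
            rw [List.take_take, min_eq_left h1]
        _ = (K l).take (K k).length := by rw [(hKn l).2.1]
        _ = K k := ih
  let f : ℕ → ℕ := fun n => (K (n + 1)).getD n 0
  have hfK : ∀ k n, n < (K k).length → f n = (K k).getD n 0 := by
    intro k n hn
    show (K (n + 1)).getD n 0 = (K k).getD n 0
    have hn1 : n < (K (n + 1)).length := lt_of_lt_of_le (Nat.lt_succ_self n) (hle (n + 1))
    rcases le_total k (n + 1) with h | h
    · rw [← htake k (n + 1) h, getD_take_of_lt hn]
    · rw [← htake (n + 1) k h, getD_take_of_lt hn1]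
  have hhist : ∀ k i, i ≤ (K k).length → hist f i = (K k).take i := by
    intro k i hi
    apply List.ext_getElem
    · simp [hi]
    · intro j hj1 hj2
      rw [hist_length] at hj1
      simp only [hist, List.getElem_map, List.getElem_range, List.getElem_take]
      rw [hfK k j (by omega), List.getD_eq_getElem?_getD, List.getElem?_eq_getElem (by omega)]
      rfl
  have hhistK : ∀ k, hist f (K k).length = K k := by
    intro k
    rw [hhist k _ le_rfl, List.take_length]
  refine ⟨f, fun x hx => ?_⟩
  rw [frequently_atTop]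
  intro r
  obtain ⟨k, hk1, hk2⟩ := frequently_atTop.1 (hF x hx) (r + 1)
  refine ⟨(K k).length, le_trans (by omega) (hle k), ?_, ?_⟩
  · rw [hhistK]
    obtain ⟨k', rfl⟩ : ∃ k', k = k' + 1 := ⟨k - 1, by omega⟩
    exact (hKn k').2.2.1
  · intro m hm1 hm2
    have hm3 : m < (K (k + 1)).length := by
      by_contra hcon
      push Not at hcon
      apply hm2 (K (k + 1)).length (hlen k) hcon
      rw [hhistK]
      exact (hKn k).2.2.1
    have hk3 : x ∈ ⋂ i ∈ Finset.Ico (K k).length (mv (K k) (F k)).length,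
      G ((mv (K k) (F k)).take i) ((mv (K k) (F k)).getD i 0) := hk2
    rw [← hKs] at hk3
    have h4 := mem_iInter₂.1 hk3 m (Finset.mem_Ico.2 ⟨hm1, hm3⟩)
    rw [← hhist (k + 1) m hm3.le, ← hfK (k + 1) m hm3] at h4
    exact h4

/-- If every family of functions indexed by `ι` is predicted in `T`-blocks by a single predictor,
then the union of `ι` many Rothberger sets is a Rothberger set. -/
theorem union_roth {T : Set (List ℕ)} (hT : IsBlocking T) {ι : Type*}
    (hp : ∀ F : ι → ℕ → ℕ, ∃ π : List ℕ → ℕ, ∀ i, Predicts T π (F i))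
    {Y : ι → Set α} (hY : ∀ i, RothSeq (Y i)) : RothSeq (⋃ i, Y i) := by
  intro G hG hc
  let G' : List ℕ → ℕ → Set α := fun σ => G (Encodable.encode σ)
  have hblock : ∀ i, ∃ f : ℕ → ℕ, ∀ x ∈ Y i, ∃ᶠ n in atTop, hist f n ∈ T ∧
      ∀ m, n ≤ m → (∀ i, n < i → i ≤ m → hist f i ∉ T) → x ∈ G' (hist f m) (f m) := fun i =>
    block_game hT (hY i) (G := G') (fun σ j => hG _ _)
      (fun σ x hx => hc _ (mem_iUnion.2 ⟨i, hx⟩))
  choose f hf using hblock
  obtain ⟨π, hπ⟩ := hp f
  refine ⟨fun n => π ((Encodable.decode (α := List ℕ) n).getD []), ?_⟩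
  intro x hx
  obtain ⟨i, hi⟩ := mem_iUnion.1 hx
  obtain ⟨n, ⟨hn1, hn2⟩, hn3⟩ := ((hf i x hi).and_eventually (hπ i)).exists
  obtain ⟨m, hm1, hm2, hm3⟩ := hn3 hn1
  refine mem_iUnion.2 ⟨Encodable.encode (hist (f i) m), ?_⟩
  have h5 := hn2 m hm1 hm2
  show x ∈ G (Encodable.encode (hist (f i) m))
    (π ((Encodable.decode (α := List ℕ) (Encodable.encode (hist (f i) m))).getD []))
  rw [Encodable.encodek]
  show x ∈ G (Encodable.encode (hist (f i) m)) (π (hist (f i) m))
  rw [← hm3]
  exact h5

end Pool.Agent.Roth
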